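import Pool.Agent.Helper20.QD.St5

/-!
# Project QD (MP_d112a4_gt): module SFU (the representation is Fuchsian)
-/

open Filter Topology Matrix Set Metric
open scoped ComplexConjugate ComplexOrder

namespace Pool.Agent.Helper52.QD

open Pool.Agent.Helper35.PM Pool.Agent.Helper20.QD

theorem su_norm (A : SL) (hA : IsSU A) {X : ℝ} (hX : hs (A : Mat) ≤ X) :
    ‖mob A 0‖ ^ 2 ≤ 1 - 1 / max X 1 := by
  have hdet : (A : Mat) 0 0 * (A : Mat) 1 1 - (A : Mat) 0 1 * (A : Mat) 1 0 = 1 := by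
    have := A.det_coe
    rw [Matrix.det_fin_two] at this
    exact this
  obtain ⟨h1, h2⟩ := hA
  set a : ℂ := (A : Mat) 0 0 with ha
  set b : ℂ := (A : Mat) 0 1 with hb
  rw [h1, h2, Complex.mul_conj, Complex.mul_conj] at hdet
  have hab : ‖a‖ ^ 2 - ‖b‖ ^ 2 = 1 := by
    rw [← Complex.normSq_eq_norm_sq, ← Complex.normSq_eq_norm_sq]
    exact_mod_cast hdet
  have hhs : hs (A : Mat) = 2 * (‖a‖ ^ 2 + ‖b‖ ^ 2) := by
    unfold hs
    rw [Fin.sum_univ_two, Fin.sum_univ_two, Fin.sum_univ_two, h1, h2, RCLike.norm_conj, RCLike.norm_conj]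
    ring
  have ha1 : 1 ≤ ‖a‖ ^ 2 := by
    have := sq_nonneg ‖b‖
    linarith
  have haX : ‖a‖ ^ 2 ≤ max X 1 := by
    refine le_trans ?_ (le_max_left _ _)
    have := sq_nonneg ‖b‖
    linarith
  have hm : ‖mob A 0‖ ^ 2 = 1 - 1 / ‖a‖ ^ 2 := by
    unfold mob
    rw [mul_zero, zero_add, mul_zero, zero_add, norm_div, h1, RCLike.norm_conj, div_pow]
    have hne : ‖a‖ ^ 2 ≠ 0 := by linarith
    change ‖b‖ ^ 2 / ‖a‖ ^ 2 = 1 - 1 / ‖a‖ ^ 2
    rw [one_sub_div hne]
    congr 1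
    linarith
  rw [hm]
  have h3 : 1 / max X 1 ≤ 1 / ‖a‖ ^ 2 := one_div_le_one_div_of_le (by linarith) haX
  linarith

theorem hSFU (hSUB : StSUB) (hRIJ : StRIJ) (hTJ2 : StTJ2) (hLLA : StLLA) (hLCZ : StLCZ) : StSFU := by
  intro Γ _ ρ σ f hG hf hinj hfD hsu heq
  obtain ⟨β, hβ⟩ := hG.jordan
  obtain ⟨hLc, -, -, -, hdyn⟩ := hLLA Γ ρ hG.cc.discrete hG.inf
  have hin : ∀ z ∈ D, f z ∈ inn (Lam ρ) := fun z hz => hfD ▸ ⟨z, hz, rfl⟩
  have h0D : (0 : ℂ) ∈ D := by simp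
  have hcont : ContinuousOn f D := hf.continuousOn
  refine ⟨hsu, ?_, ?_⟩
  · intro X
    have hY : (1 : ℝ) ≤ max X 1 := le_max_right _ _
    set r : ℝ := Real.sqrt (1 - 1 / max X 1) with hr
    have hr0 : 0 ≤ 1 - 1 / max X 1 := by
      rw [sub_nonneg, div_le_one (by linarith)]
      exact hY
    have hr1 : r < 1 := by
      rw [hr, Real.sqrt_lt' one_pos]
      have : 0 < 1 / max X 1 := by positivity
      linarith
    have hsubD : closedBall (0 : ℂ) r ⊆ D := closedBall_subset_ball hr1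
    have hK : IsCompact (f '' closedBall (0 : ℂ) r) :=
      (isCompact_closedBall _ _).image_of_continuousOn (hcont.mono hsubD)
    have hdis : Disjoint (f '' closedBall (0 : ℂ) r) (Lam ρ) := by
      rw [Set.disjoint_left]
      rintro _ ⟨z, hz, rfl⟩
      exact (hin z (hsubD hz)).1
    obtain ⟨e, he, he2⟩ := exists_pos_forall_lt_edist hK hLc.isClosed hdis
    have hfin := hdyn {f 0} isCompact_singleton (by
      rw [Set.disjoint_singleton_left]
      exact (hin 0 h0D).1) e (by exact_mod_cast he)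
    refine hfin.subset fun γ hγ => ?_
    rintro ⟨l, hl, -, hz⟩
    have h1 := (hz (f 0) rfl).2
    rw [← heq γ 0 h0D] at h1
    have h2 : f (mob (σ γ) 0) ∈ f '' closedBall (0 : ℂ) r := by
      refine ⟨_, ?_, rfl⟩
      rw [mem_closedBall_zero_iff]
      exact Real.le_sqrt_of_sq_le (su_norm (σ γ) (hsu γ) hγ)
    have h3 := he2 _ h2 l hl
    rw [edist_dist, Complex.dist_eq] at h3
    have h4 : ((e : ℝ) : ℝ) < ‖f (mob (σ γ) 0) - l‖ := by
      rw [← ENNReal.ofReal_coe_nnreal] at h3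
      exact (ENNReal.ofReal_lt_ofReal_iff_of_nonneg e.2).1 h3
    linarith
  · obtain ⟨ε, hε, hcc⟩ := hLCZ Γ ρ hG
    obtain ⟨-, hbd, -, -, -, hfr, -⟩ := hTJ2 β (Lam ρ) hβ
    obtain ⟨-, hfo, g, hg, hgf⟩ := hRIJ D f isOpen_ball hf hinj
    rw [hfD] at hfo hg
    set K : Set ℂ := {w | w ∈ inn (Lam ρ) ∧ ∀ l ∈ Lam ρ, ε ≤ ‖w - l‖} with hK
    have hKe : K = closure (inn (Lam ρ)) ∩ ⋂ l ∈ Lam ρ, {w : ℂ | ε ≤ ‖w - l‖} := by
      ext w
      simp only [hK, mem_ofPred_eq, mem_inter_iff, mem_iInter]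
      constructor
      · rintro ⟨h1, h2⟩
        exact ⟨subset_closure h1, h2⟩
      · rintro ⟨h1, h2⟩
        refine ⟨?_, h2⟩
        by_contra h3
        have h4 : w ∈ frontier (inn (Lam ρ)) := by
          rw [frontier, hfo.interior_eq]
          exact ⟨h1, h3⟩
        have h5 := h2 w (hfr h4)
        rw [sub_self, norm_zero] at h5
        linarith
    have hKcl : IsClosed K := by
      rw [hKe]
      refine isClosed_closure.inter (isClosed_biInter fun l _ => ?_)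
      exact isClosed_le continuous_const (continuous_id.sub continuous_const).norm
    have hKc : IsCompact K := by
      refine isCompact_of_isClosed_isBounded hKcl (hbd.subset fun w hw => hw.1)
    have hgK : IsCompact (g '' K) :=
      hKc.image_of_continuousOn (hg.continuousOn.mono fun w hw => hw.1)
    have hgD : ∀ w ∈ inn (Lam ρ), g w ∈ D := by
      intro w hw
      rw [← hfD] at hw
      obtain ⟨z, hz, rfl⟩ := hw
      rw [hgf z hz]
      exact hz
    obtain ⟨r, hr, hrb⟩ : ∃ r : ℝ, r < 1 ∧ ∀ u ∈ g '' K, ‖u‖ ≤ r := by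
      rcases (g '' K).eq_empty_or_nonempty with h | h
      · exact ⟨0, one_pos, fun u hu => by rw [h] at hu; exact absurd hu (notMem_empty u)⟩
      · obtain ⟨u, hu, hmax⟩ := hgK.exists_isMaxOn h continuous_norm.continuousOn
        refine ⟨‖u‖, ?_, fun v hv => hmax hv⟩
        obtain ⟨w, hw, rfl⟩ := hu
        have := hgD w hw.1
        rwa [mem_ball_zero_iff] at this
    refine ⟨r, hr, fun z hz => ?_⟩
    obtain ⟨γ, hγ⟩ := hcc (f z) (hin z hz)
    refine ⟨γ, hrb _ ⟨mob (ρ γ) (f z), ⟨(hG.side γ (f z) (hin z hz)).2, hγ⟩, ?_⟩⟩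
    rw [← heq γ z hz]
    refine hgf _ ?_
    exact ((hSUB.1 (σ γ) (hsu γ)).2.2.1).mapsTo hz

end Pool.Agent.Helper52.QD
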